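import Pool.Agent.HB4F.Exist

set_option autoImplicit false

/-! # MP_4f0bc7_gt: which constant-type Hitchin-section Higgs bundles on `ℂ` and `ℂ*` are harmonic

`X = ℂ` with `σ = 1`, or `X = ℂ*` with `σ = z`, so that `dz/σ` is the invariant differential of `X`;
`κ` is any nowhere vanishing holomorphic function (the square root of the canonical bundle has a
frame `τ` with `τ² = κ dz`, and every square root arises so); in the frame
`τ^{n-1}, τ^{n-3}, …, τ^{1-n}` the Higgs field with `q_j = Q_j τ^{2j}` is `higgs n κ Q`, and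
`Q_j = c_j / (κ σ)^j` means `q_j = c_j (dz/σ)^j`.  `sectionMatrix n c` has `1` on the subdiagonal and
`c j` on the `(j-1)`-th superdiagonal. -/

namespace Pool.Agent.Results.MP_4f0bc7_gt.ConstantCriterion

open Q198.Hit Complex

/-- Let `n ≥ 2`, let `X` be `ℂ` (with `σ = 1`) or `ℂ*` (with `σ = z`), and take any square root of
the canonical bundle.
(1) For all constants `c_2, …, c_n` the Higgs bundle of the Hitchin section attached to
`q_j = c_j (dz/σ)^j` has a harmonic metric if and only if the matrix `sectionMatrix n c` has `n`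
distinct eigenvalues.
(2) If `n ≥ 3`, there are such constants with `c_n ≠ 0` and `c_{n-1} ≠ 0` for which there is no
harmonic metric. -/
theorem result (n : ℕ) (hn : 2 ≤ n) (U : Set ℂ) (σ : ℂ → ℂ)
    (hU : (U = Set.univ ∧ σ = fun _ => 1) ∨ (U = {0}ᶜ ∧ σ = fun z => z)) (κ : ℂ → ℂ)
    (hκ : DifferentiableOn ℂ κ U) (hκ0 : ∀ z ∈ U, κ z ≠ 0) :
    (∀ (c : ℕ → ℂ) (j : ℕ), DifferentiableOn ℂ (fun z => c j / (κ z * σ z) ^ j) U) ∧
    (∀ c : ℕ → ℂ,
      (∃ H : ℂ → Matrix (Fin n) (Fin n) ℂ,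
        IsHarmonicMetric U (higgs n κ (fun j z => c j / (κ z * σ z) ^ j)) H) ↔
        (sectionMatrix n c).charpoly.roots.Nodup) ∧
    (3 ≤ n → ∃ c : ℕ → ℂ, c n ≠ 0 ∧ c (n - 1) ≠ 0 ∧
      ¬ ∃ H : ℂ → Matrix (Fin n) (Fin n) ℂ,
        IsHarmonicMetric U (higgs n κ (fun j z => c j / (κ z * σ z) ^ j)) H) := by
  have hopen : IsOpen U := by
    rcases hU with ⟨rfl, -⟩ | ⟨rfl, -⟩
    · exact isOpen_univ
    · exact isOpen_compl_singleton
  obtain ⟨g, hσ, hσ0, hg, hgU⟩ : ∃ g : ℂ → ℂ, DifferentiableOn ℂ σ U ∧ (∀ z ∈ U, σ z ≠ 0) ∧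
      (∀ ζ, HasDerivAt g (σ (g ζ)) ζ) ∧ (∀ ζ, g ζ ∈ U) := by
    rcases hU with ⟨rfl, rfl⟩ | ⟨rfl, rfl⟩
    · exact ⟨fun z => z, differentiableOn_const 1, fun _ _ => one_ne_zero,
        fun ζ => hasDerivAt_id ζ, fun _ => trivial⟩
    · exact ⟨Complex.exp, differentiableOn_id, fun z hz => hz,
        fun ζ => Complex.hasDerivAt_exp ζ, fun ζ => Complex.exp_ne_zero ζ⟩
  have hw0 : ∀ z ∈ U, κ z * σ z ≠ 0 := fun z hz => mul_ne_zero (hκ0 z hz) (hσ0 z hz)
  refine ⟨fun c j => ?_, fun c => ?_, fun h3 => ?_⟩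
  · exact (differentiableOn_const _).div ((hκ.mul hσ).pow j) (fun z hz => pow_ne_zero _ (hw0 z hz))
  · obtain ⟨m, rfl⟩ : ∃ m, n = m + 1 := ⟨n - 1, by omega⟩
    rw [Polynomial.nodup_roots_iff_of_splits (Matrix.charpoly_monic _).ne_zero
      (IsAlgClosed.splits _)]
    constructor
    · intro hH
      by_contra hns
      obtain ⟨l, u, hu2, hu1⟩ := Pool.Agent.HB4F.chain_of_not_separable c hns
      exact no_metric hopen hκ hκ0 hσ hσ0 hg hgU c l u hu2 hu1 hH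
    · intro hs
      exact Pool.Agent.HB4F.exists_metric hopen hκ hκ0 hσ hσ0 c hs
  · obtain ⟨m, rfl⟩ : ∃ m, n = m + 3 := ⟨n - 3, by omega⟩
    obtain ⟨u, hu2, hu1⟩ := jordan m
    have hn1 : (m : ℂ) + 3 ≠ 0 := by
      have : ((m + 3 : ℕ) : ℂ) ≠ 0 := Nat.cast_ne_zero.2 (by omega)
      exact_mod_cast this
    have hn2 : (m : ℂ) + 2 ≠ 0 := by
      have : ((m + 2 : ℕ) : ℂ) ≠ 0 := Nat.cast_ne_zero.2 (by omega)
      exact_mod_cast this
    refine ⟨cc m (((m : ℂ) + 3) / 2) (-((m : ℂ) + 2)), ?_, ?_,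
      no_metric hopen hκ hκ0 hσ hσ0 hg hgU _ 1 u hu2 hu1⟩
    · rw [cc, if_neg (by omega), if_pos rfl]
      exact neg_ne_zero.2 hn2
    · rw [cc, if_pos (by omega)]
      exact div_ne_zero hn1 two_ne_zero

end Pool.Agent.Results.MP_4f0bc7_gt.ConstantCriterion
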